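import Pool.Agent.W5h23.RG.Inst

set_option autoImplicit false

/-!
# Record prime gaps around `f(i) + α v(i) b + g(b)`: thin families `v` of small additive energy, arbitrary thin sets of `b`

Let `L(x) = log x (log₂ x)² log₄ x / (log₃ x)²` be the size of the largest prime gaps of the starting library, and let `α` be
a real number with `|q α - p| ≥ c q ^ (-μ)` (`μ = 1` for quadratic irrationals, every `μ > 1` for irrational algebraic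
and for almost all real numbers).

(1) Let `E_h(v)` be the additive energy of order `h` of a finite family `v` of integers of size at most `R N` and let
`B ⊆ [0, N]` be any set of integers. If

  `E_h(v) N ^ (2 - 1 / μ + ε) ≤ |ι| ^ (2 h) |B|` for ONE `h ≥ 1`,

then, for ARBITRARY real functions `f`, `g` such that all values `f(i) + α v(i) b + g(b)` are at least `N ^ ε`, for at
least `|ι| |B| N ^ (-ε)` of the pairs `(i, b)` no prime is within `κ L(N)` of the value. (`E_1 = |ι|` for an injective family,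
so `h = 1` is the condition `|A| |B| ≥ N ^ (2 - 1 / μ + ε)` of the starting result `ProductsOfArbitrarySets`.) For `μ = 1` and
families of nearly minimal energy of some order both `ι` and `B` may have as few as `N ^ ε` elements.

(2) `v(m) = F(m)`, `m ∈ S`, where `F` is a polynomial with integral coefficients of degree `k ≥ 1`, `N = M ^ k`, `S` is any set of
at least `M ^ (1 - δ)` natural numbers up to `M`, and `|B| ≥ N ^ (1 - 1 / μ + ε)`.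

(3) `v(m) = ⌊F(m)⌋`, `m ∈ S`, where `F` is a smooth function (`c0 A ≤ |F⁽ʲ⁾(t)| M ^ j ≤ C0 A` for `1 ≤ j ≤ Q + 2` and
`M ≤ t ≤ 2 M`; for instance `F(t) = β t ^ s`, `F(t) = β log t`), `N ^ (1 - δ) ≤ A ≤ M ^ Q` and `|S| ≥ M N ^ (-δ)`, `|B|` as in (2).

(4) `v` any strictly convex or concave sequence of `n` integers of size at most `R N`, `n² |B| ≥ N ^ (2 - 1 / μ + ε)`
(instead of `n |B| ≥ N ^ (2 - 1 / μ + ε)` for arbitrary sets).

Proof (`Pool.Agent.W5h23.RG`). The inequality of Cauchy and Schwarz removes `f`, Hölder's inequality leads to the moments of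
order `2 h` of `∑ e(θ v(i) (b - b'))` over `b ∈ B`, which are bounded by the large sieve for the points `θ b` and the
energy. The energies in (2), (3), (4) are from the starting files (`Pool.Agent.TH212.PL`) and from `Pool.Agent.W5h23.SF`. The covering
sieve of the starting library, in the form `Pool.Agent.TH915.PW.crit_scaled`, does the rest.
-/

namespace Pool.Agent.Results.MP_45ff98_nt.EnergyOfAnyOrder

open Finset Polynomial

/-- `L(x) = log x (log log x)^2 log log log log x / (log log log x)^2`. -/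
noncomputable def L (x : ℝ) : ℝ :=
  Real.log x * (Real.log (Real.log x)) ^ 2 * Real.log (Real.log (Real.log (Real.log x))) /
    (Real.log (Real.log (Real.log x))) ^ 2

/-- no prime is at distance at most `d` from `x` -/
def PrimeFree (x d : ℝ) : Prop := ∀ q : ℕ, q.Prime → d < |(q : ℝ) - x|

/-- `|q α - p| ≥ c q ^ (-μ)` for all integers `q ≥ 1` and `p` -/
def Dioph (c μ α : ℝ) : Prop := ∀ q : ℕ, 1 ≤ q → ∀ p : ℤ, c * (q : ℝ) ^ (-μ) ≤ |(q : ℝ) * α - p|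

/-- The additive energy of order `h` of a finite family `v i` (`i ∈ ι`) of integers: the number of solutions of
`v (a 1) + ... + v (a h) = v (b 1) + ... + v (b h)`. -/
noncomputable def energy (h : ℕ) {ι : Type} (v : ι → ℤ) : ℕ :=
  Nat.card {q : (Fin h → ι) × (Fin h → ι) // ∑ j, v (q.1 j) = ∑ j, v (q.2 j)}

open Classical in
/-- For ARBITRARY functions `f`, `g` such that the values `f(i) + α v(i) b + g(b)`, `i ∈ A`, `b ∈ B`, are at least `N ^ ε`, no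
prime is within `κ L(N)` of the value for at least `|A| |B| N ^ (-ε)` pairs `(i, b)`. -/
def Gaps (κ ε : ℝ) (N : ℕ) (α : ℝ) {ι : Type} (A : Finset ι) (v : ι → ℤ) (B : Finset ℕ) : Prop :=
  ∀ (f : ι → ℝ) (g : ℕ → ℝ), (∀ i ∈ A, ∀ b ∈ B, (N : ℝ) ^ ε ≤ f i + α * v i * b + g b) →
    (A.card : ℝ) * B.card * (N : ℝ) ^ (-ε) ≤
      (((A ×ˢ B).filter fun p : ι × ℕ => PrimeFree (f p.1 + α * v p.1 * p.2 + g p.2) (κ * L N)).card : ℝ)

/-- `F` varies on `[M, 2 M]` like a function of size `A` of the variable `t / M`: the functions `D j` are the successive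
derivatives of `F = D 0`, and `c0 A ≤ |F⁽ʲ⁾(t)| M ^ j ≤ C0 A` for `1 ≤ j ≤ K`. -/
def Smooth (K : ℕ) (c0 C0 M A : ℝ) (F : ℝ → ℝ) : Prop :=
  ∃ D : ℕ → ℝ → ℝ, D 0 = F ∧ (∀ j ≤ K, ∀ t ∈ Set.Icc M (2 * M), HasDerivAt (D j) (D (j + 1) t) t) ∧
    ∀ j, 1 ≤ j → j ≤ K → ∀ t ∈ Set.Icc M (2 * M), c0 * A ≤ |D j t| * M ^ j ∧ |D j t| * M ^ j ≤ C0 * A

/-- the differences of the sequence increase strictly, or they decrease strictly -/
def ConvexOrConcave (n : ℕ) (a : ℕ → ℤ) : Prop :=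
  (∀ i, i + 2 < n → a (i + 1) - a i < a (i + 2) - a (i + 1)) ∨ (∀ i, i + 2 < n → a (i + 2) - a (i + 1) < a (i + 1) - a i)

theorem result (μ ε : ℝ) (hμ : 1 ≤ μ) (hε : 0 < ε) :
    -- (1) the criterion
    (∀ h : ℕ, 1 ≤ h → ∃ κ : ℝ, 0 < κ ∧ ∀ (c : ℝ) (R : ℕ), 0 < c → ∃ N₀ : ℕ, ∀ N : ℕ, N₀ ≤ N → ∀ α : ℝ, Dioph c μ α →
      ∀ (ι : Type) [Fintype ι] (v : ι → ℤ) (B : Finset ℕ), (∀ i, |v i| ≤ R * N) → (∀ b ∈ B, b ≤ N) →
      (energy h v : ℝ) * (N : ℝ) ^ (2 - 1 / μ + ε) ≤ (Fintype.card ι : ℝ) ^ (2 * h) * B.card →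
      Gaps κ ε N α univ v B) ∧
    -- (2) values of polynomials
    (∀ F : ℤ[X], 1 ≤ F.natDegree → ∃ κ δ : ℝ, 0 < κ ∧ 0 < δ ∧ ∀ c : ℝ, 0 < c → ∃ M₀ : ℕ, ∀ M : ℕ, M₀ ≤ M →
      ∀ α : ℝ, Dioph c μ α → ∀ S : Finset ℕ, S ⊆ Icc 1 M → (M : ℝ) ^ (1 - δ) ≤ S.card →
      ∀ B : Finset ℕ, (∀ b ∈ B, b ≤ M ^ F.natDegree) → ((M ^ F.natDegree : ℕ) : ℝ) ^ (1 - 1 / μ + ε) ≤ B.card →
      Gaps κ ε (M ^ F.natDegree) α S (fun m => F.eval (m : ℤ)) B) ∧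
    -- (3) integral parts of smooth functions
    (∀ (Q : ℕ) (c0 C0 : ℝ), 1 ≤ Q → 0 < c0 → 1 ≤ C0 → ∃ κ δ : ℝ, 0 < κ ∧ 0 < δ ∧ ∀ (c : ℝ) (R : ℕ), 0 < c →
      ∃ N₀ : ℕ, ∀ N : ℕ, N₀ ≤ N → ∀ α : ℝ, Dioph c μ α →
      ∀ (M : ℕ) (A : ℝ) (F : ℝ → ℝ), (N : ℝ) ^ (1 - δ) ≤ A → A ≤ (M : ℝ) ^ Q → Smooth (Q + 2) c0 C0 M A F →
      ∀ S : Finset ℕ, S ⊆ Ico M (2 * M) → (M : ℝ) ≤ (N : ℝ) ^ δ * S.card → (∀ m ∈ S, |⌊F m⌋| ≤ R * N) →
      ∀ B : Finset ℕ, (∀ b ∈ B, b ≤ N) → (N : ℝ) ^ (1 - 1 / μ + ε) ≤ B.card →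
      Gaps κ ε N α S (fun m => ⌊F m⌋) B) ∧
    (∀ (s : ℝ) (K : ℕ), (∀ k : ℕ, s ≠ k) → ∃ c0 C0 : ℝ, 0 < c0 ∧ 1 ≤ C0 ∧ ∀ M β : ℝ, 0 < M → β ≠ 0 →
      Smooth K c0 C0 M (|β| * M ^ s) (fun t => β * t ^ s)) ∧
    (∀ K : ℕ, ∃ c0 C0 : ℝ, 0 < c0 ∧ 1 ≤ C0 ∧ ∀ M β : ℝ, 0 < M → β ≠ 0 →
      Smooth K c0 C0 M |β| (fun t => β * Real.log t)) ∧
    -- (4) strictly convex sequences
    (∃ κ : ℝ, 0 < κ ∧ ∀ (c : ℝ) (R : ℕ), 0 < c → ∃ N₀ : ℕ, ∀ N : ℕ, N₀ ≤ N → ∀ α : ℝ, Dioph c μ α →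
      ∀ (n : ℕ) (a : ℕ → ℤ), ConvexOrConcave n a → (∀ i < n, |a i| ≤ R * N) →
      ∀ B : Finset ℕ, (∀ b ∈ B, b ≤ N) → (N : ℝ) ^ (2 - 1 / μ + ε) ≤ (n : ℝ) ^ 2 * B.card →
      Gaps κ ε N α (range n) a B) := by
  refine ⟨fun h hh => ?_, fun F hF => Pool.Agent.W5h23.RG.gaps_poly μ ε hμ hε F hF,
    fun Q c0 C0 hQ hc0 hC0 => Pool.Agent.W5h23.RG.gaps_smooth μ ε hμ hε Q c0 C0 hQ hc0 hC0,
    fun s K hs => Pool.Agent.W5h23.SF.smooth_rpow s hs K, fun K => Pool.Agent.W5h23.SF.smooth_log K,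
    Pool.Agent.W5h23.RG.gaps_convex μ ε hμ hε⟩
  obtain ⟨κ, hκ, hm⟩ := Pool.Agent.W5h23.RG.main μ ε hμ hε h hh
  refine ⟨κ, hκ, fun c R hc => ?_⟩
  obtain ⟨N₀, h0⟩ := hm c R hc
  refine ⟨N₀, fun N hN α hα ι _ v B hv hB hE f g hpos => ?_⟩
  classical
  rw [card_univ]
  refine h0 N hN α hα ι v B hv hB hE f g (fun i b hb => hpos i (mem_univ _) b hb) _ ?_
  intro i b hb hp
  rw [mem_filter, mem_product]
  exact ⟨⟨mem_univ _, hb⟩, hp⟩

end Pool.Agent.Results.MP_45ff98_nt.EnergyOfAnyOrder
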