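import Pool.Agent.W5h23.MT.In2

/-!
# Record prime gaps around `α a` and `a ^ c`, `a` in an arbitrary set: the dimension of the exceptional parameters

Let `L(x) = log x (log₂ x)² log₄ x / (log₃ x)²` be the size of the largest prime gaps of the starting library. Let `A` be an
ARBITRARY set of real numbers (for instance of integers) with mutual distances at least `1`, and let `β ∈ [0, 1]` be such
that, for every `δ > 0`, `A` has at least `N ^ (β - δ)` elements in `[N, 2 N]` for arbitrarily large `N`. Let `f, g ≥ 0` be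
ARBITRARY real functions. Call a parameter `α` regular for the family `F(α, a)` if, for every `δ > 0`, there is `κ > 0` such
that for arbitrarily large `N` at least `N ^ (β - δ)` of the `a ∈ A ∩ [N, 2 N]` have no prime within `κ L(a)` of `F(α, a)`:
so the elements of `A` next to which there are prime gaps of record size have the same exponent as `A` itself.

(1) All `α > 0` outside a set of Hausdorff dimension at most `1 - β` are regular for `F(α, a) = α a + f(α) + g(a)`.

(2) For every `C ≥ 1`, all `c ∈ [1, C]` outside a set of Hausdorff dimension at most `1 - β / C` are regular for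
`F(c, a) = a ^ c + f(c) + g(a)`.

So for `β > 0` almost all `α` and almost all `c ≥ 1` are regular, and if `β = 1` (the integers, the primes, ...) then the
exceptional `α` form a set of dimension zero. For `A = {n ^ s : n ∈ B}`, `s ≥ 1`, part (1) is about the numbers
`α n ^ s + f(α) + g(n)`. Bounds of this shape are classical for the uniform distribution modulo one of `α a_n` (Erdős and
Taylor: dimension at most `1 - 1/p` if `a_n = O(n ^ p)`); about prime gaps nothing of this kind is known to us.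

Proof (`Pool.Agent.W5h23.MT`). If the exceptional parameters had a larger dimension then for a large `N` there would be a
set of them, separated by `N ^ (-1)` (by `N ^ (-C)`), such that its product with `A ∩ [N, 2 N]` is so large that the theorem
for phases on pairs of separated sets (helper28, `Pool.Agent.W5h28.PH`, hand-in `PhasesOnSeparatedSets`) gives good pairs.
-/

set_option autoImplicit false

namespace Pool.Agent.Results.MP_45ff98_nt.ExceptionalParameters

/-- `L(x) = log x (log log x)^2 log log log log x / (log log log x)^2`. -/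
noncomputable def L (x : ℝ) : ℝ :=
  Real.log x * (Real.log (Real.log x)) ^ 2 * Real.log (Real.log (Real.log (Real.log x))) /
    (Real.log (Real.log (Real.log x))) ^ 2

/-- no prime is at distance at most `d` from `x` -/
def PrimeFree (x d : ℝ) : Prop := ∀ q : ℕ, q.Prime → d < |(q : ℝ) - x|

/-- the elements of `A` have mutual distances at least `1` -/
def Separated (A : Set ℝ) : Prop := ∀ a ∈ A, ∀ b ∈ A, a ≠ b → 1 ≤ |a - b|

/-- for every `δ > 0` there are arbitrarily large `N` with at least `N ^ (β - δ)` elements of `A` in `[N, 2 N]` -/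
def Exponent (A : Set ℝ) (β : ℝ) : Prop :=
  ∀ δ : ℝ, 0 < δ → ∀ N₀ : ℝ, ∃ N : ℝ, N₀ ≤ N ∧
    N ^ (β - δ) ≤ ({a : ℝ | a ∈ A ∧ N ≤ a ∧ a ≤ 2 * N}.ncard : ℝ)

/-- for every `δ > 0` there is `κ > 0` such that there are arbitrarily large `N` with at least `N ^ (β - δ)` elements `a` of
`A` in `[N, 2 N]` for which no prime is within `κ L(a)` of `F α a` -/
def Regular (F : ℝ → ℝ → ℝ) (A : Set ℝ) (β α : ℝ) : Prop :=
  ∀ δ : ℝ, 0 < δ → ∃ κ : ℝ, 0 < κ ∧ ∀ N₀ : ℝ, ∃ N : ℝ, N₀ ≤ N ∧
    N ^ (β - δ) ≤
      ({a : ℝ | a ∈ A ∧ N ≤ a ∧ a ≤ 2 * N ∧ PrimeFree (F α a) (κ * L a)}.ncard : ℝ)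

theorem result (A : Set ℝ) (β : ℝ) (hA : Separated A) (hβ0 : 0 ≤ β) (hβ1 : β ≤ 1)
    (hexp : Exponent A β) (f g : ℝ → ℝ) (hf : ∀ x, 0 ≤ f x) (hg : ∀ x, 0 ≤ g x) :
    dimH {α : ℝ | 0 < α ∧ ¬ Regular (fun α a => α * a + f α + g a) A β α} ≤
      ENNReal.ofReal (1 - β) ∧
    ∀ C : ℝ, 1 ≤ C →
      dimH {c : ℝ | 1 ≤ c ∧ c ≤ C ∧ ¬ Regular (fun c a => a ^ c + f c + g a) A β c} ≤
        ENNReal.ofReal (1 - β / C) := by
  constructor
  · have hsub : {α : ℝ | 0 < α ∧ ¬ Regular (fun α a => α * a + f α + g a) A β α} ⊆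
        ⋃ n : ℤ, {α : ℝ | α ∈ Set.Icc ((2 : ℝ) ^ n) (2 * (2 : ℝ) ^ n) ∧
          ¬ Pool.Agent.W5h23.MT.Reg (fun α a => α * a + f α + g a) A β α} := by
      rintro α ⟨h1, h2⟩
      obtain ⟨n, hn⟩ := exists_mem_Ico_zpow h1 one_lt_two
      rw [Set.mem_iUnion]
      refine ⟨n, ⟨hn.1, ?_⟩, h2⟩
      have h3 := hn.2.le
      rwa [zpow_add_one₀ two_ne_zero, mul_comm] at h3
    refine (dimH_mono hsub).trans ?_
    rw [dimH_iUnion]
    refine iSup_le fun n => ?_
    have hu : (0 : ℝ) < (2 : ℝ) ^ n := by positivity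
    have h := Pool.Agent.W5h23.MT.dim_main _ A (Set.Icc ((2 : ℝ) ^ n) (2 * (2 : ℝ) ^ n)) 1 β one_pos
      hβ0 hβ1 hA hexp (Pool.Agent.W5h23.MT.input_dil A hA _ hu f g hf hg)
    rwa [div_one] at h
  · intro C hC
    have h := Pool.Agent.W5h23.MT.dim_main _ A (Set.Icc 1 C) C β (by linarith) hβ0 (hβ1.trans hC)
      hA hexp (Pool.Agent.W5h23.MT.input_exp A hA C hC f g hf hg)
    refine (dimH_mono ?_).trans h
    rintro c ⟨h1, h2, h3⟩
    exact ⟨⟨h1, h2⟩, h3⟩

end Pool.Agent.Results.MP_45ff98_nt.ExceptionalParameters
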