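import Pool.Agent.W5h23.HG.Inst

set_option autoImplicit false

/-!
# Record prime gaps along the cliques of hypergraphs on thin families

Let `L(x) = log x (log₂ x)² log₄ x / (log₃ x)²` be the size of the largest prime gaps of the starting library, and let `α` be
a real number with `|q α - p| ≥ c q ^ (-μ)` (`μ = 1` for quadratic irrationals, every `μ > 1` for irrational algebraic
and for almost all real numbers). There are `r + 2` variables, `r ≥ 1`: `i` in a finite set `S` of indices, `b` in a set `B` of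
integers `≤ N`, and `x_j`, `1 ≤ j ≤ r`, in a set `A_j` of integers `≤ U_j`, `|A_j| ≥ N ^ ε`. Consider the values

  `α x_1 ⋯ x_r v(i) b + F_1 + ... + F_r + G(x, i) + H(x, b)`,  `F_j = F_j(x, i, b)` not depending on `x_j`,

so that each of the functions `F_j`, `G`, `H` is an ARBITRARY real function of all the variables BUT ONE, on the set `T` of
the cliques of an ARBITRARY `(r + 2)`-partite `(r + 1)`-uniform hypergraph (for `r = 1` the triangles of a graph). The only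
conditions are that `T` has at least `N ^ (-δ)` times the maximal number of elements and that the values are `≥ N ^ ε` on `T`. Then
for at least `|T| N ^ (-ε)` elements of `T` no prime is within `κ L(N)` of the value, provided that

(1) `|v| ≤ R N` and `E_h(v) U_1 ⋯ U_r N ^ (2 - 1 / μ + ε) ≤ |S| ^ (2 h) |B| |A_1| ⋯ |A_r|` for ONE `h ≥ 1`, `E_h(v)` the
additive energy of `v` of order `h`;

(2) `v(m) = F(m)`, `m ∈ S`, where `F` is a polynomial with integral coefficients of degree `k ≥ 1`, `N = M ^ k`, `S` is any set of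
at least `M ^ (1 - δ)` natural numbers up to `M`, and `U_1 ⋯ U_r N ^ (1 - 1 / μ + ε) ≤ |B| |A_1| ⋯ |A_r|`;

(3) `v(m) = ⌊F(m)⌋`, `m ∈ S`, where `F` is a smooth function (`c0 V ≤ |F⁽ʲ⁾(t)| M ^ j ≤ C0 V` for `1 ≤ j ≤ Q + 2` and
`M ≤ t ≤ 2 M`; for instance `F(t) = β t ^ s`, `F(t) = β log t`), `N ^ (1 - δ) ≤ V ≤ M ^ Q` and `|S| ≥ M N ^ (-δ)`, the other sets
as in (2);

(4) `v` is any strictly convex or concave sequence of `n` integers of size at most `R N` and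
`U_1 ⋯ U_r N ^ (2 - 1 / μ + ε) ≤ n² |B| |A_1| ⋯ |A_r|`.

The family `v` can be very thin: for `μ = 1` it has only to satisfy `E_h(v) N ≤ |S| ^ (2 h) N ^ (-ε)` times the relative density of
the other sets for one `h`, and the product of the densities of the other `r + 1` sets may be as small as `N ^ (-1 + ε)` if `v` has
nearly minimal energy of some order.

Proof (`Pool.Agent.W5h23.HG`). The inequality of Cauchy and Schwarz, applied `r` times, removes the functions `F_j`. The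
divisor bound and a bound for sums of `‖θ m‖⁻¹` over long intervals leave bilinear sums of the phases `θ v(i) b`, which are
estimated by the large sieve and the energy. The covering sieve of the starting library, in the form
`Pool.Agent.TH915.PW.crit_scaled`, does the rest.
-/

namespace Pool.Agent.Results.MP_45ff98_nt.HypergraphsOfThinFamilies

open Finset Polynomial

/-- `L(x) = log x (log log x)^2 log log log log x / (log log log x)^2`. -/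
noncomputable def L (x : ℝ) : ℝ :=
  Real.log x * (Real.log (Real.log x)) ^ 2 * Real.log (Real.log (Real.log (Real.log x))) /
    (Real.log (Real.log (Real.log x))) ^ 2

/-- no prime is at distance at most `d` from `x` -/
def PrimeFree (x d : ℝ) : Prop := ∀ q : ℕ, q.Prime → d < |(q : ℝ) - x|

/-- `|q α - p| ≥ c q ^ (-μ)` for all integers `q ≥ 1` and `p` -/
def Dioph (c μ α : ℝ) : Prop := ∀ q : ℕ, 1 ≤ q → ∀ p : ℤ, c * (q : ℝ) ^ (-μ) ≤ |(q : ℝ) * α - p|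

/-- The additive energy of order `h` of a finite family `v i` (`i ∈ ι`) of integers: the number of solutions of
`v (a 1) + ... + v (a h) = v (b 1) + ... + v (b h)`. -/
noncomputable def energy (h : ℕ) {ι : Type} (v : ι → ℤ) : ℕ :=
  Nat.card {q : (Fin h → ι) × (Fin h → ι) // ∑ j, v (q.1 j) = ∑ j, v (q.2 j)}

/-- `f` does not depend on the variable number `j` -/
def IndepOf {r : ℕ} {β : Type} (j : Fin r) (f : (Fin r → ℕ) → β) : Prop := ∀ x t, f (Function.update x j t) = f x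

/-- the value `α x_1 ⋯ x_r v(i) b + ∑ F_j(x, i, b) + G(x, i) + H(x, b)` at `t = (x, i, b)` -/
noncomputable def value {r : ℕ} {ι : Type} (α : ℝ) (v : ι → ℤ) (F : Fin r → (Fin r → ℕ) → ι → ℕ → ℝ)
    (G : (Fin r → ℕ) → ι → ℝ) (H : (Fin r → ℕ) → ℕ → ℝ) (t : (Fin r → ℕ) × ι × ℕ) : ℝ :=
  α * (∏ j, (t.1 j : ℝ)) * v t.2.1 * t.2.2 + ∑ j, F j t.1 t.2.1 t.2.2 + G t.1 t.2.1 + H t.1 t.2.2

/-- `t = (x, i, b)` is a clique: `x_j ∈ A_j`, `b ∈ B`, and the relations `P_j`, `P'`, `P''` hold -/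
def Clique {r : ℕ} {ι : Type} (A : Fin r → Finset ℕ) (B : Finset ℕ) (P : Fin r → (Fin r → ℕ) → ι → ℕ → Prop)
    (P' : (Fin r → ℕ) → ι → Prop) (P'' : (Fin r → ℕ) → ℕ → Prop) (t : (Fin r → ℕ) × ι × ℕ) : Prop :=
  (∀ j, t.1 j ∈ A j) ∧ t.2.2 ∈ B ∧ (∀ j, P j t.1 t.2.1 t.2.2) ∧ P' t.1 t.2.1 ∧ P'' t.1 t.2.2

open Classical in
/-- For ARBITRARY relations `P_j`, `P'`, `P''` and ARBITRARY functions `F_j`, `G`, `H`, each of all the variables but one, such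
that the set `T` of the cliques has at least `N ^ (-δ) |S| |B| ∏ |A_j|` elements and the values are at least `N ^ ε` on
`T`: no prime is within `κ L(N)` of the value for at least `|T| N ^ (-ε)` elements of `T`. -/
def ManyGaps (κ δ ε : ℝ) (N : ℕ) (α : ℝ) {ι : Type} (S : Finset ι) (v : ι → ℤ) (B : Finset ℕ) {r : ℕ}
    (A : Fin r → Finset ℕ) : Prop :=
  ∀ (P : Fin r → (Fin r → ℕ) → ι → ℕ → Prop) (P' : (Fin r → ℕ) → ι → Prop) (P'' : (Fin r → ℕ) → ℕ → Prop)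
    (F : Fin r → (Fin r → ℕ) → ι → ℕ → ℝ) (G : (Fin r → ℕ) → ι → ℝ) (H : (Fin r → ℕ) → ℕ → ℝ),
    (∀ j, IndepOf j (P j)) → (∀ j, IndepOf j (F j)) →
    ∀ T : Finset ((Fin r → ℕ) × ι × ℕ), (∀ t, t ∈ T ↔ t.2.1 ∈ S ∧ Clique A B P P' P'' t) →
    (S.card : ℝ) * B.card * (∏ j, ((A j).card : ℝ)) * (N : ℝ) ^ (-δ) ≤ T.card →
    (∀ t ∈ T, (N : ℝ) ^ ε ≤ value α v F G H t) →
    (T.card : ℝ) * (N : ℝ) ^ (-ε) ≤ ((T.filter fun t => PrimeFree (value α v F G H t) (κ * L N)).card : ℝ)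

/-- `F` varies on `[M, 2 M]` like a function of size `V` of the variable `t / M`: the functions `D j` are the successive
derivatives of `F = D 0`, and `c0 V ≤ |F⁽ʲ⁾(t)| M ^ j ≤ C0 V` for `1 ≤ j ≤ K`. -/
def Smooth (K : ℕ) (c0 C0 M V : ℝ) (F : ℝ → ℝ) : Prop :=
  ∃ D : ℕ → ℝ → ℝ, D 0 = F ∧ (∀ j ≤ K, ∀ t ∈ Set.Icc M (2 * M), HasDerivAt (D j) (D (j + 1) t) t) ∧
    ∀ j, 1 ≤ j → j ≤ K → ∀ t ∈ Set.Icc M (2 * M), c0 * V ≤ |D j t| * M ^ j ∧ |D j t| * M ^ j ≤ C0 * V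

/-- the differences of the sequence increase strictly, or they decrease strictly -/
def ConvexOrConcave (n : ℕ) (a : ℕ → ℤ) : Prop :=
  (∀ i, i + 2 < n → a (i + 1) - a i < a (i + 2) - a (i + 1)) ∨ (∀ i, i + 2 < n → a (i + 2) - a (i + 1) < a (i + 1) - a i)

theorem result (μ ε : ℝ) (hμ : 1 ≤ μ) (hε : 0 < ε) (r : ℕ) (_hr : 1 ≤ r) :
    -- (1) the criterion
    (∀ h : ℕ, 1 ≤ h → ∃ κ δ : ℝ, 0 < κ ∧ 0 < δ ∧ ∀ (c : ℝ) (R : ℕ), 0 < c → ∃ N₀ : ℕ, ∀ N : ℕ, N₀ ≤ N →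
      ∀ α : ℝ, Dioph c μ α → ∀ (ι : Type) (S : Finset ι) (v : ι → ℤ) (B : Finset ℕ) (A : Fin r → Finset ℕ) (U : Fin r → ℕ),
      (∀ i ∈ S, |v i| ≤ R * N) → (∀ b ∈ B, b ≤ N) → (∀ j, ∀ a ∈ A j, a ≤ U j) → (∀ j, U j ≤ N ^ R) →
      (∀ j, (N : ℝ) ^ ε ≤ (A j).card) →
      (energy h (fun i : {i // i ∈ S} => v i) : ℝ) * (∏ j, (U j : ℝ)) * (N : ℝ) ^ (2 - 1 / μ + ε) ≤
        (S.card : ℝ) ^ (2 * h) * B.card * ∏ j, ((A j).card : ℝ) →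
      ManyGaps κ δ ε N α S v B A) ∧
    -- (2) values of polynomials
    (∀ F : ℤ[X], 1 ≤ F.natDegree → ∃ κ δ : ℝ, 0 < κ ∧ 0 < δ ∧ ∀ (c : ℝ) (R : ℕ), 0 < c → ∃ M₀ : ℕ, ∀ M : ℕ, M₀ ≤ M →
      ∀ α : ℝ, Dioph c μ α → ∀ S : Finset ℕ, S ⊆ Icc 1 M → (M : ℝ) ^ (1 - δ) ≤ S.card →
      ∀ (B : Finset ℕ) (A : Fin r → Finset ℕ) (U : Fin r → ℕ), (∀ b ∈ B, b ≤ M ^ F.natDegree) →
      (∀ j, ∀ a ∈ A j, a ≤ U j) → (∀ j, U j ≤ M ^ R) → (∀ j, ((M ^ F.natDegree : ℕ) : ℝ) ^ ε ≤ (A j).card) →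
      (∏ j, (U j : ℝ)) * ((M ^ F.natDegree : ℕ) : ℝ) ^ (1 - 1 / μ + ε) ≤ B.card * ∏ j, ((A j).card : ℝ) →
      ManyGaps κ δ ε (M ^ F.natDegree) α S (fun m => F.eval (m : ℤ)) B A) ∧
    -- (3) integral parts of smooth functions
    (∀ (Q : ℕ) (c0 C0 : ℝ), 1 ≤ Q → 0 < c0 → 1 ≤ C0 → ∃ κ δ : ℝ, 0 < κ ∧ 0 < δ ∧ ∀ (c : ℝ) (R : ℕ), 0 < c →
      ∃ N₀ : ℕ, ∀ N : ℕ, N₀ ≤ N → ∀ α : ℝ, Dioph c μ α →
      ∀ (M : ℕ) (V : ℝ) (F : ℝ → ℝ), (N : ℝ) ^ (1 - δ) ≤ V → V ≤ (M : ℝ) ^ Q → Smooth (Q + 2) c0 C0 M V F →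
      ∀ S : Finset ℕ, S ⊆ Ico M (2 * M) → (M : ℝ) ≤ (N : ℝ) ^ δ * S.card → (∀ m ∈ S, |⌊F m⌋| ≤ R * N) →
      ∀ (B : Finset ℕ) (A : Fin r → Finset ℕ) (U : Fin r → ℕ), (∀ b ∈ B, b ≤ N) → (∀ j, ∀ a ∈ A j, a ≤ U j) →
      (∀ j, U j ≤ N ^ R) → (∀ j, (N : ℝ) ^ ε ≤ (A j).card) →
      (∏ j, (U j : ℝ)) * (N : ℝ) ^ (1 - 1 / μ + ε) ≤ B.card * ∏ j, ((A j).card : ℝ) →
      ManyGaps κ δ ε N α S (fun m => ⌊F m⌋) B A) ∧
    (∀ (s : ℝ) (K : ℕ), (∀ k : ℕ, s ≠ k) → ∃ c0 C0 : ℝ, 0 < c0 ∧ 1 ≤ C0 ∧ ∀ M β : ℝ, 0 < M → β ≠ 0 →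
      Smooth K c0 C0 M (|β| * M ^ s) (fun t => β * t ^ s)) ∧
    (∀ K : ℕ, ∃ c0 C0 : ℝ, 0 < c0 ∧ 1 ≤ C0 ∧ ∀ M β : ℝ, 0 < M → β ≠ 0 →
      Smooth K c0 C0 M |β| (fun t => β * Real.log t)) ∧
    -- (4) strictly convex sequences
    (∃ κ δ : ℝ, 0 < κ ∧ 0 < δ ∧ ∀ (c : ℝ) (R : ℕ), 0 < c → ∃ N₀ : ℕ, ∀ N : ℕ, N₀ ≤ N → ∀ α : ℝ, Dioph c μ α →
      ∀ (n : ℕ) (v : ℕ → ℤ), 1 ≤ n → ConvexOrConcave n v → (∀ i < n, |v i| ≤ R * N) →
      ∀ (B : Finset ℕ) (A : Fin r → Finset ℕ) (U : Fin r → ℕ), (∀ b ∈ B, b ≤ N) → (∀ j, ∀ a ∈ A j, a ≤ U j) →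
      (∀ j, U j ≤ N ^ R) → (∀ j, (N : ℝ) ^ ε ≤ (A j).card) →
      (∏ j, (U j : ℝ)) * (N : ℝ) ^ (2 - 1 / μ + ε) ≤ (n : ℝ) ^ 2 * (B.card * ∏ j, ((A j).card : ℝ)) →
      ManyGaps κ δ ε N α (range n) v B A) :=
  ⟨fun h hh => Pool.Agent.W5h23.HG.critS μ ε hμ hε h r hh,
    fun F hF => Pool.Agent.W5h23.HG.cgaps_poly μ ε hμ hε r F hF,
    fun Q c0 C0 hQ hc0 hC0 => Pool.Agent.W5h23.HG.cgaps_smooth μ ε hμ hε r Q c0 C0 hQ hc0 hC0,
    fun s K hs => Pool.Agent.W5h23.SF.smooth_rpow s hs K, fun K => Pool.Agent.W5h23.SF.smooth_log K,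
    Pool.Agent.W5h23.HG.cgaps_convex μ ε hμ hε r⟩

end Pool.Agent.Results.MP_45ff98_nt.HypergraphsOfThinFamilies
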