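import Pool.Agent.W5h28.PH.Last

set_option autoImplicit false

/-!
# Prime gaps of record length along nondegenerate phases on arbitrary separated sets: the threshold

Let `L(Z) = log Z (log₂ Z)² log₄ Z / (log₃ Z)²` be the size of the largest prime gaps of the starting
library. Let `F` be a real function on the rectangle `[u, u + U] × [v, v + V]`, `V ≤ Z`, whose mixed
derivative `F_xy` is between `T / (C U V)` and `C T / (U V)` in absolute value and whose third derivative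
`F_xxy` is at most `C T / (U² V)`; so `T` is the size of the part of `F` that is not a sum
`f(a) + g(b)`. Let `A ⊂ [u, u + U]` and `B ⊂ [v, v + V]` be ARBITRARY finite sets of real numbers, the
elements of each with mutual distances at least `1`, with

  `|A| |B| ≥ Z ^ ε max(U, V, T, U V / T)`,

and let `f`, `g` be ARBITRARY real functions such that all the values `F(a, b) + f(a) + g(b)` are at
least `Z ^ ε`. Then for at least `|A| |B| Z ^ (-ε)` of the pairs no prime is within `κ L(Z)` of the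
value, where `κ > 0` depends only on `ε`.

The condition is sharp, up to the factor `Z ^ ε`, for all `1 ≤ T ≤ max(U, V)` (second part): there are
such sets with `|A| |B| ≥ max(U, V, U V / (8 C T))` and functions `f`, `g` for which all the values lie
in one interval `[r, r + 1/4]`, for any given `r`. For example for `U = V = T = N` (hypotenuses
`√(a² + b²)`, quotients `N a / b`, `a, b ∈ [N, 2 N]`) the threshold is `|A| |B| = N ^ (1 + o(1))`.

The third part gives examples of `F`: the functions `λ x^c y^d` (`c, d ≠ 0`) and `λ (x^p + y^p)^s`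
(`p, s ≠ 0`, `s ≠ 1`), `λ > 0`.

The starting result `MP_7ba156_nt.SmoothPhases` treats sets with `|A| |B| ≥ U V Z ^ (-ε / 2)` and
amplitudes `Z ^ ε ≤ T ≤ U V Z ^ (-ε)`; for these `U V Z ^ (-ε / 2)` is much larger than
`max(U, V, T, U V / T)`.

Proof (`Pool.Agent.W5h28.PH`). The bilinear exponential sum over `A × B` is compared with its means over
short intervals around the points of `A`; after the inequality of Cauchy and Schwarz only integrals of
`e(θ (F(t, y) - F(t, y')))` over `[u, u + U]` remain, which are bounded by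
`U V / (θ T |y - y'|)` (first derivative test without monotonicity). The covering sieve of the
starting library, in the form `Pool.Agent.TH915.PW.crit_scaled` (helper915), does the rest.
-/

namespace Pool.Agent.Results.MP_45ff98_nt.PhasesOnSeparatedSets

open Set

/-- `L(x) = log x (log log x)^2 log log log log x / (log log log x)^2`. -/
noncomputable def L (x : ℝ) : ℝ :=
  Real.log x * (Real.log (Real.log x)) ^ 2 * Real.log (Real.log (Real.log (Real.log x))) /
    (Real.log (Real.log (Real.log x))) ^ 2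

/-- no prime is at distance at most `d` from `x` -/
def PrimeFree (x d : ℝ) : Prop := ∀ q : ℕ, q.Prime → d < |(q : ℝ) - x|

/-- `F` is a phase function of size `T` on `[u, u + U] × [v, v + V]`: the derivatives
`F₁ = F_x`, `F₁₁ = F_xx`, `F₁₂ = F_xy`, `F₁₁₂ = F_xxy` exist there, `F_xx` is continuous in `x`,
`T / (C U V) ≤ |F_xy| ≤ C T / (U V)` and `|F_xxy| ≤ C T / (U² V)`. -/
def Phase (C T U V u v : ℝ) (F : ℝ → ℝ → ℝ) : Prop :=
  ∃ F₁ F₁₁ F₁₂ F₁₁₂ : ℝ → ℝ → ℝ,
    (∀ x ∈ Icc u (u + U), ∀ y ∈ Icc v (v + V),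
      HasDerivAt (fun t => F t y) (F₁ x y) x ∧ HasDerivAt (fun t => F₁ t y) (F₁₁ x y) x ∧
      HasDerivAt (fun t => F₁ x t) (F₁₂ x y) y ∧ HasDerivAt (fun t => F₁₁ x t) (F₁₁₂ x y) y ∧
      T / (C * (U * V)) ≤ |F₁₂ x y| ∧ |F₁₂ x y| ≤ C * T / (U * V) ∧
      |F₁₁₂ x y| ≤ C * T / (U ^ 2 * V)) ∧
    ∀ y ∈ Icc v (v + V), ContinuousOn (fun t => F₁₁ t y) (Icc u (u + U))

/-- a finite subset of `[u, u + N]` whose elements have mutual distances at least `1` -/
def Separated (u N : ℝ) (A : Finset ℝ) : Prop :=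
  (∀ x ∈ A, u ≤ x ∧ x ≤ u + N) ∧ ∀ x ∈ A, ∀ x' ∈ A, x ≠ x' → 1 ≤ |x - x'|

open Classical in
theorem result :
    (∀ ε : ℝ, 0 < ε → ∃ κ : ℝ, 0 < κ ∧ ∀ C : ℝ, 1 ≤ C → ∃ Z₀ : ℝ, ∀ Z : ℝ, Z₀ ≤ Z →
      ∀ T U V u v : ℝ, 0 < T → 1 ≤ U → 1 ≤ V → V ≤ Z →
      ∀ F : ℝ → ℝ → ℝ, Phase C T U V u v F →
      ∀ A B : Finset ℝ, Separated u U A → Separated v V B →
      Z ^ ε * max (max U V) (max T (U * V / T)) ≤ (A.card : ℝ) * B.card →
      ∀ f g : ℝ → ℝ, (∀ a ∈ A, ∀ b ∈ B, Z ^ ε ≤ F a b + f a + g b) →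
      (A.card : ℝ) * B.card * Z ^ (-ε) ≤ (((A ×ˢ B).filter fun p : ℝ × ℝ =>
        PrimeFree (F p.1 p.2 + f p.1 + g p.2) (κ * L Z)).card : ℝ)) ∧
    (∀ C T U V u v : ℝ, 1 ≤ C → 1 ≤ T → 0 < U → 0 < V → ∀ F : ℝ → ℝ → ℝ, Phase C T U V u v F →
      ∃ A B : Finset ℝ, Separated u U A ∧ Separated v V B ∧
      max (max U V) (U * V / (8 * C * T)) ≤ (A.card : ℝ) * B.card ∧
      ∀ r : ℝ, ∃ f g : ℝ → ℝ, ∀ a ∈ A, ∀ b ∈ B,
        r ≤ F a b + f a + g b ∧ F a b + f a + g b ≤ r + 1 / 4) ∧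
    (∀ c d : ℝ, c ≠ 0 → d ≠ 0 → ∃ C : ℝ, 1 ≤ C ∧ ∀ U V lam : ℝ, 0 < U → 0 < V → 0 < lam →
      Phase C (lam * U ^ c * V ^ d) U V U V (fun x y => lam * x ^ c * y ^ d)) ∧
    (∀ p s : ℝ, p ≠ 0 → s ≠ 0 → s ≠ 1 → ∃ C : ℝ, 1 ≤ C ∧ ∀ N lam : ℝ, 0 < N → 0 < lam →
      Phase C (lam * N ^ (p * s)) N N N N (fun x y => lam * (x ^ p + y ^ p) ^ s)) := by
  refine ⟨fun ε hε => ?_, fun C T U V u v hC hT hU hV F hF =>
    Pool.Agent.W5h28.PH.sharp hC hU hV hT hF,
    Pool.Agent.W5h28.PH.phase_mono, Pool.Agent.W5h28.PH.phase_sum⟩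
  obtain ⟨κ, hκ, h⟩ := Pool.Agent.W5h28.PH.general ε hε
  refine ⟨κ, hκ, fun C hC => ?_⟩
  obtain ⟨Z₀, h0⟩ := Filter.eventually_atTop.mp (h C hC)
  refine ⟨Z₀, fun Z hZ T U V u v hT hU hV hVZ F hF A B hA hB hcard f g hfg => ?_⟩
  have := h0 Z hZ T U V u v hT hU hV hVZ F hF A B hA hB hcard f g hfg
  exact this

end Pool.Agent.Results.MP_45ff98_nt.PhasesOnSeparatedSets
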